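import Pool.Agent.Y142.SI.Stm
import Pool.Agent.Y297.SS.CF

/-!
Project Y142-SI (owner helper142), task SUBF: factors over `ℚ_ℓ` and stable sets of roots.
-/

set_option autoImplicit false

open Polynomial NumberField IsDedekindDomain
open Pool.Agent.Y142.ZO Pool.Agent.Y142.ZI Pool.Agent.Y971.ZI Pool.Agent.Y297.SS
open Pool.Agent.Y142.SS (S_LF S_CF)

namespace Pool.Agent.Y932.SI.Subf

theorem ff_pow (ℓ : ℕ) [hℓ : Fact ℓ.Prime] (k : Type) [Field k] [Algebra (ZMod ℓ) k] (φ : k →+* k)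
    (a : k) (ha : IsIntegral (ZMod ℓ) a) : ∃ j : ℕ, φ a = a ^ ℓ ^ j := by
  let ψ : k →ₐ[ZMod ℓ] k := { φ with
    commutes' := fun r => by
      have h : φ.comp (algebraMap (ZMod ℓ) k) = algebraMap (ZMod ℓ) k := RingHom.ext_zmod _ _
      exact congrArg (fun f : ZMod ℓ →+* k => f r) h }
  let K0 : IntermediateField (ZMod ℓ) k := IntermediateField.adjoin (ZMod ℓ) {a}
  have hfd : FiniteDimensional (ZMod ℓ) K0 := IntermediateField.adjoin.finiteDimensional ha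
  have hfin : Finite K0 := Module.finite_of_finite (ZMod ℓ)
  have hgal : IsGalois (ZMod ℓ) K0 := inferInstance
  let a0 : K0 := ⟨a, IntermediateField.mem_adjoin_simple_self (ZMod ℓ) a⟩
  obtain ⟨n, hn⟩ := (FiniteField.bijective_frobeniusAlgHom_pow (ZMod ℓ) K0).2
    (ψ.restrictNormal K0)
  refine ⟨n.1, ?_⟩
  have h1 := ψ.restrictNormal_commutes K0 a0
  rw [← hn] at h1
  have h2 : (FiniteField.frobeniusAlgHom (ZMod ℓ) K0 ^ n.1) a0 = a0 ^ ℓ ^ n.1 := by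
    rw [AlgHom.coe_pow, FiniteField.coe_frobeniusAlgHom, pow_iterate, ZMod.card]
  simp only at h1
  rw [h2, map_pow] at h1
  exact h1.symm

theorem lift_R {k Wf : Type} [Field k] [CharZero k] [Field Wf] [Algebra k Wf] [IsGalois k Wf] (R0 : Wf[X])
    (hm : R0.Monic) (h : ∀ τ : Wf ≃ₐ[k] Wf, R0.map (τ : Wf →+* Wf) = R0) :
    ∃ R : k[X], R.map (algebraMap k Wf) = R0 ∧ R.natDegree = R0.natDegree ∧ R.Monic := by
  apply lifts_and_natDegree_eq_and_monic _ hm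
  rw [lifts_iff_coeff_lifts]
  intro n
  rw [InfiniteGalois.mem_range_algebraMap_iff_fixed]
  intro f
  have h1 := congrArg (fun q => coeff q n) (h f)
  simp only [coeff_map] at h1
  exact h1

theorem galT (ℓ : ℕ) [Fact ℓ.Prime] : IsGalois ℚ_[ℓ] (AlgebraicClosure ℚ_[ℓ]) := by
  infer_instance

theorem iso_norm (ℓ : ℕ) [Fact ℓ.Prime]
    (τ : AlgebraicClosure ℚ_[ℓ] ≃ₐ[ℚ_[ℓ]] AlgebraicClosure ℚ_[ℓ]) (x : AlgebraicClosure ℚ_[ℓ]) :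
    ‖τ x‖ = ‖x‖ := by
  have h1 := spectralNorm_eq_of_equiv τ x
  have h2 : spectralNorm ℚ_[ℓ] (AlgebraicClosure ℚ_[ℓ]) x = ‖x‖ := PadicAlgCl.spectralNorm_eq ℓ x
  have h3 : spectralNorm ℚ_[ℓ] (AlgebraicClosure ℚ_[ℓ]) (τ x) = ‖τ x‖ := PadicAlgCl.spectralNorm_eq ℓ (τ x)
  rw [← h2, ← h3, h1]

/-- two roots which are congruent modulo a prime ideal above a large prime are equal -/
theorem inj_mod {P a b : ℤ[X]} {N : ℤ} (hab : a * P + b * derivative P = C N) (hN : N ≠ 0)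
    {ℓ : ℕ} (hℓ : ℓ.Prime) (hlt : N.natAbs < ℓ) (𝔮 : Ideal (𝓞 QQ)) (h𝔮 : 𝔮.IsPrime)
    (hℓq : (ℓ : 𝓞 QQ) ∈ 𝔮) (w w' : 𝓞 QQ) (hg : w' - w ∈ 𝔮) (hw : aeval w P = 0)
    (hw' : aeval w' P = 0) : w' = w := by
  by_contra hne
  have h1 : (P.map (algebraMap ℤ (𝓞 QQ))).IsRoot w := by
    rw [IsRoot.def, eval_map]
    exact hw
  obtain ⟨G, hG⟩ := dvd_iff_isRoot.2 h1
  have h2 : eval w' G = 0 := by
    have h3 : eval w' (P.map (algebraMap ℤ (𝓞 QQ))) = 0 := by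
      rw [eval_map]
      exact hw'
    rw [hG, eval_mul, eval_sub, eval_X, eval_C] at h3
    exact (mul_eq_zero.1 h3).resolve_left (sub_ne_zero.2 hne)
  have h3 : eval w' (derivative (P.map (algebraMap ℤ (𝓞 QQ)))) ∈ 𝔮 := by
    rw [hG, derivative_mul, derivative_sub, derivative_X, derivative_C, sub_zero, one_mul,
      eval_add, h2, zero_add, eval_mul, eval_sub, eval_X, eval_C]
    exact 𝔮.mul_mem_right _ hg
  have h4 : ((N : ℤ) : 𝓞 QQ) ∈ 𝔮 := by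
    have h5 := congrArg (fun r : ℤ[X] => eval w' (r.map (algebraMap ℤ (𝓞 QQ)))) hab
    have h6 : eval w' (P.map (algebraMap ℤ (𝓞 QQ))) = 0 := by
      rw [eval_map]
      exact hw'
    simp only [Polynomial.map_add, Polynomial.map_mul, ← Polynomial.derivative_map, eval_add,
      eval_mul, h6, mul_zero, zero_add, Polynomial.map_C, eval_C] at h5
    rw [eq_intCast] at h5
    rw [← h5]
    exact 𝔮.mul_mem_left _ h3
  have hcop : IsCoprime N (ℓ : ℤ) := by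
    rw [Int.isCoprime_iff_gcd_eq_one, Int.gcd, Int.natAbs_natCast]
    exact (Nat.coprime_comm.1 ((Nat.Prime.coprime_iff_not_dvd hℓ).2 fun h =>
      absurd (Nat.le_of_dvd (Int.natAbs_pos.2 hN) h) (by omega)))
  obtain ⟨u, v, huv⟩ := hcop
  apply h𝔮.ne_top
  rw [Ideal.eq_top_iff_one]
  have h5 : (1 : 𝓞 QQ) = (u : 𝓞 QQ) * (N : 𝓞 QQ) + (v : 𝓞 QQ) * (ℓ : 𝓞 QQ) := by
    exact_mod_cast congrArg (fun z : ℤ => (z : 𝓞 QQ)) huv.symm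
  rw [h5]
  exact 𝔮.add_mem (𝔮.mul_mem_left _ h4) (𝔮.mul_mem_left _ hℓq)

/-- the action on the residue field is given by powers of the Frobenius element -/
theorem residue (ℓ : ℕ) [hℓ : Fact ℓ.Prime] (ι : QQ →+* AlgebraicClosure ℚ_[ℓ])
    (τ : AlgebraicClosure ℚ_[ℓ] ≃ₐ[ℚ_[ℓ]] AlgebraicClosure ℚ_[ℓ]) (g : GK ℚ)
    (hg : ∀ x : QQ, τ (ι x) = ι (g x)) (w : 𝓞 QQ) :
    ∃ j : ℕ, g • w - w ^ ℓ ^ j ∈ q0 ℓ ι := by
  have hmax := q0_max ℓ ι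
  let _ : Field ((𝓞 QQ) ⧸ q0 ℓ ι) := Ideal.Quotient.field (q0 ℓ ι)
  have hchar : CharP ((𝓞 QQ) ⧸ q0 ℓ ι) ℓ := by
    rw [CharP.charP_iff_prime_eq_zero hℓ.out]
    have h1 : Ideal.Quotient.mk (q0 ℓ ι) (ℓ : 𝓞 QQ) = 0 :=
      Ideal.Quotient.eq_zero_iff_mem.mpr (l_mem_q0 ℓ ι)
    rwa [map_natCast] at h1
  let _ : Algebra (ZMod ℓ) ((𝓞 QQ) ⧸ q0 ℓ ι) := ZMod.algebra _ ℓ
  set mk : 𝓞 QQ →+* (𝓞 QQ) ⧸ q0 ℓ ι := Ideal.Quotient.mk (q0 ℓ ι) with hmk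
  set gr : 𝓞 QQ →+* 𝓞 QQ := MulSemiringAction.toRingHom (GK ℚ) (𝓞 QQ) g with hgr
  have hstab : ∀ x ∈ q0 ℓ ι, (mk.comp gr) x = 0 := by
    intro x hx
    show mk (g • x) = 0
    rw [hmk, Ideal.Quotient.eq_zero_iff_mem, mem_q0]
    rw [mem_q0] at hx
    have h1 : ((g • x : 𝓞 QQ) : QQ) = g (x : QQ) := rfl
    rw [h1, ← hg, iso_norm]
    exact hx
  let φ : (𝓞 QQ) ⧸ q0 ℓ ι →+* (𝓞 QQ) ⧸ q0 ℓ ι := Ideal.Quotient.lift (q0 ℓ ι) (mk.comp gr) hstab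
  have hφ : ∀ x : 𝓞 QQ, φ (mk x) = mk (g • x) := fun x => Ideal.Quotient.lift_mk _ _ _
  have hint : IsIntegral (ZMod ℓ) (mk w) := by
    obtain ⟨F, hF, hFw⟩ : IsIntegral ℤ w := Algebra.IsIntegral.isIntegral w
    refine ⟨F.map (Int.castRingHom (ZMod ℓ)), hF.map _, ?_⟩
    rw [eval₂_map, RingHom.ext_int ((algebraMap (ZMod ℓ) ((𝓞 QQ) ⧸ q0 ℓ ι)).comp
      (Int.castRingHom (ZMod ℓ))) (mk.comp (algebraMap ℤ (𝓞 QQ))), ← hom_eval₂, hFw, map_zero]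
  obtain ⟨j, hj⟩ := ff_pow ℓ _ φ (mk w) hint
  refine ⟨j, ?_⟩
  rw [hφ, ← map_pow] at hj
  exact Ideal.Quotient.eq.mp hj

theorem frob_pow (ℓ : ℕ) [hℓ : Fact ℓ.Prime] (ι : QQ →+* AlgebraicClosure ℚ_[ℓ]) (σ : GK ℚ)
    (hσ : ∀ x : 𝓞 QQ, σ • x - x ^ ℓ ∈ q0 ℓ ι) (w : 𝓞 QQ) (j : ℕ) :
    (σ ^ j) • w - w ^ ℓ ^ j ∈ q0 ℓ ι := by
  induction j with
  | zero => simp
  | succ j ih =>
    have h1 := hσ ((σ ^ j) • w)
    have h2 : ((σ ^ j) • w) ^ ℓ - (w ^ ℓ ^ j) ^ ℓ ∈ q0 ℓ ι := by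
      obtain ⟨c, hc⟩ := sub_dvd_pow_sub_pow ((σ ^ j) • w) (w ^ ℓ ^ j) ℓ
      rw [hc]
      exact (q0 ℓ ι).mul_mem_right _ ih
    have h3 := (q0 ℓ ι).add_mem h1 h2
    rw [pow_succ' σ j, mul_smul, pow_succ, pow_mul]
    have h4 : σ • σ ^ j • w - (w ^ ℓ ^ j) ^ ℓ =
        σ • σ ^ j • w - (σ ^ j • w) ^ ℓ + ((σ ^ j • w) ^ ℓ - (w ^ ℓ ^ j) ^ ℓ) := by ring
    rw [h4]
    exact h3

/-- global and local Frobenius elements: the embedding, with the congruence -/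
theorem cf (hLF : S_LF) : ∀ Q : ℚ[X], Q.Monic → Q.Separable →
    ∃ b : ℕ, ∀ ℓ : ℕ, b < ℓ → ∀ _ : Fact ℓ.Prime, ∀ σ : GK ℚ, FrobAt ℓ σ →
    ∃ (ι : QQ →+* AlgebraicClosure ℚ_[ℓ])
      (τ : AlgebraicClosure ℚ_[ℓ] ≃ₐ[ℚ_[ℓ]] AlgebraicClosure ℚ_[ℓ]) (σ' : GK ℚ),
      (∀ x : QQ, τ (ι x) = ι (σ' x)) ∧ (∀ x : QQ, aeval x Q = 0 → σ' x = σ x) ∧
      ∀ x : QQ, aeval x Q = 0 → ∀ g : GK ℚ, (∀ w : 𝓞 QQ, ∃ j : ℕ, g • w - w ^ ℓ ^ j ∈ q0 ℓ ι) →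
        ∃ j : ℕ, g x = (σ' ^ j) x := by
  intro Q hQm hQs
  obtain ⟨D, hD0, P, hPm, hP⟩ := exists_scale Q hQm
  have hDQ : (D : ℚ) ≠ 0 := by exact_mod_cast hD0.ne'
  have hDQQ : (D : QQ) ≠ 0 := by exact_mod_cast hD0.ne'
  have hPsep : (P.map (Int.castRingHom ℚ)).Separable := by
    rw [hP, separable_def, derivative_scale Q _]
    exact isCoprime_scaleRoots _ _ _ (isUnit_iff_ne_zero.mpr hDQ) hQs
  obtain ⟨N, hN0, a, b, hab⟩ := sep_bound P hPsep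
  refine ⟨N.natAbs, ?_⟩
  intro ℓ hℓ hfact σ hfrob
  have hℓp : ℓ.Prime := hfact.out
  have key' : ∀ x : QQ, aeval x Q = 0 → ∃ w : 𝓞 QQ, (w : QQ) = D * x ∧ aeval w P = 0 := by
    intro x hx
    have h3 := scaleRoots_eval₂_mul (p := Q) (algebraMap ℚ QQ) x (D : ℚ)
    rw [← hP, map_natCast, eval₂_map] at h3
    have h5 : eval₂ (algebraMap ℚ QQ) x Q = 0 := hx
    rw [h5, mul_zero] at h3
    have h4 : aeval ((D : QQ) * x) P = 0 := by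
      rw [RingHom.ext_int ((algebraMap ℚ QQ).comp (Int.castRingHom ℚ)) (algebraMap ℤ QQ)] at h3
      exact h3
    refine ⟨⟨(D : QQ) * x, P, hPm, h4⟩, rfl, ?_⟩
    apply RingOfIntegers.coe_injective
    rw [map_zero]
    exact (aeval_algebraMap_apply QQ (⟨(D : QQ) * x, P, hPm, h4⟩ : 𝓞 QQ) P).symm.trans h4
  obtain ⟨ι₀⟩ := emb ℓ
  obtain ⟨τ, hτ⟩ := hLF ℓ
  obtain ⟨σ₀, hσ₀⟩ := Pool.Agent.Y142.ZS.restrict0 ℓ ι₀ τ
  have hF0 := (Pool.Agent.Y726.ZI.frobAt_iff hℓp σ₀).1 (frob0 ℓ ι₀ τ hτ σ₀ hσ₀)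
  obtain ⟨ρ, i, hi, hσ⟩ := Pool.Agent.W401.Frob.conj_frob (Pool.Agent.Y726.ZI.pv ℓ hℓp) σ₀ σ
    hF0 ((Pool.Agent.Y726.ZI.frobAt_iff hℓp σ).1 hfrob)
  have hcomm : ∀ x : QQ, τ ((ι₀.comp ((ρ⁻¹ : GK ℚ) : QQ →+* QQ)) x) =
      (ι₀.comp ((ρ⁻¹ : GK ℚ) : QQ →+* QQ)) ((ρ * σ₀ * ρ⁻¹) x) := by
    intro x
    show τ (ι₀ ((ρ⁻¹ : GK ℚ) x)) = ι₀ ((ρ⁻¹ : GK ℚ) ((ρ * σ₀ * ρ⁻¹) x))
    rw [hσ₀]
    congr 1
    rw [← AlgEquiv.mul_apply ρ⁻¹ (ρ * σ₀ * ρ⁻¹) x, ← mul_assoc, ← mul_assoc, inv_mul_cancel,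
      one_mul]
    rfl
  set ι : QQ →+* AlgebraicClosure ℚ_[ℓ] := ι₀.comp ((ρ⁻¹ : GK ℚ) : QQ →+* QQ) with hι
  refine ⟨ι, τ, ρ * σ₀ * ρ⁻¹, hcomm, ?_, ?_⟩
  · intro x hx
    obtain ⟨w, hwx, hw⟩ := key' x hx
    obtain ⟨𝔮, h𝔮, h𝔮v, hi'⟩ := hi
    have hℓq : (ℓ : 𝓞 QQ) ∈ 𝔮 := by
      have h1 : (ℓ : 𝓞 ℚ) ∈ (Pool.Agent.Y726.ZI.pv ℓ hℓp).asIdeal :=
        Ideal.mem_span_singleton_self _
      rw [← h𝔮v, Ideal.mem_comap, map_natCast] at h1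
      exact h1
    have h1 := inert_fix hab hN0 hℓp hℓ i 𝔮 h𝔮.isPrime hℓq hi' w hw
    have h2 : i (w : QQ) = (w : QQ) := congrArg (fun z : 𝓞 QQ => (z : QQ)) h1
    rw [hwx, map_mul, map_natCast] at h2
    have h3 : i x = x := mul_left_cancel₀ hDQQ h2
    rw [hσ, AlgEquiv.mul_apply (ρ * σ₀ * ρ⁻¹) i x, h3]
  · intro x hx g hg
    obtain ⟨w, hwx, hw⟩ := key' x hx
    obtain ⟨j, hj⟩ := hg w
    refine ⟨j, ?_⟩
    have hfr : ∀ x : 𝓞 QQ, (ρ * σ₀ * ρ⁻¹) • x - x ^ ℓ ∈ q0 ℓ ι := by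
      intro x
      rw [mem_q0]
      have h1 : ((((ρ * σ₀ * ρ⁻¹) • x - x ^ ℓ : 𝓞 QQ)) : QQ) =
        (ρ * σ₀ * ρ⁻¹) (x : QQ) - (x : QQ) ^ ℓ := rfl
      rw [h1, map_sub, map_pow, ← hcomm]
      exact hτ _ (norm_le_one ℓ _ (x.2.map ι.toIntAlgHom))
    have h1 := frob_pow ℓ ι _ hfr w j
    have h2 : g • w - (ρ * σ₀ * ρ⁻¹) ^ j • w ∈ q0 ℓ ι := by
      have h3 := (q0 ℓ ι).sub_mem hj h1
      have h4 : g • w - w ^ ℓ ^ j - ((ρ * σ₀ * ρ⁻¹) ^ j • w - w ^ ℓ ^ j) =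
        g • w - (ρ * σ₀ * ρ⁻¹) ^ j • w := by ring
      rwa [h4] at h3
    have hroot : ∀ h : GK ℚ, aeval (h • w) P = 0 := by
      intro h
      have h1 := hom_eval₂ P (algebraMap ℤ (𝓞 QQ))
        (MulSemiringAction.toRingHom (GK ℚ) (𝓞 QQ) h) w
      rw [RingHom.ext_int ((MulSemiringAction.toRingHom (GK ℚ) (𝓞 QQ) h).comp
        (algebraMap ℤ (𝓞 QQ))) (algebraMap ℤ (𝓞 QQ))] at h1
      have h2 : eval₂ (algebraMap ℤ (𝓞 QQ)) w P = 0 := hw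
      rw [h2, map_zero] at h1
      exact h1.symm
    have h5 := inj_mod hab hN0 hℓp hℓ (q0 ℓ ι) (q0_prime ℓ ι) (l_mem_q0 ℓ ι) _ _ h2
      (hroot _) (hroot _)
    have h6 : g (w : QQ) = ((ρ * σ₀ * ρ⁻¹) ^ j) (w : QQ) :=
      congrArg (fun z : 𝓞 QQ => (z : QQ)) h5
    rw [hwx, map_mul, map_mul, map_natCast, map_natCast] at h6
    exact mul_left_cancel₀ hDQQ h6

/-- **Task SUBF.** -/
theorem t0 (hLF : S_LF) : Pool.Agent.Y142.SI.S_SUBF := by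
  classical
  intro Q hQm hQs
  obtain ⟨b, hb⟩ := cf hLF Q hQm hQs
  refine ⟨b, fun ℓ hℓ hp σ hσ => ?_⟩
  obtain ⟨ι, τ, σ', h2, h3, h4⟩ := hb ℓ hℓ hp σ hσ
  refine ⟨ι, fun R _ x hx hRx => ?_, fun T hT hTσ => ?_⟩
  · rw [← h3 x hx, ← h2 x]
    have h5 : aeval (τ (ι x)) R = τ (aeval (ι x) R) :=
      Polynomial.aeval_algHom_apply τ.toAlgHom (ι x) R
    rw [h5, hRx, map_zero]
  · -- the set of roots is finite
    have hQ0 : Q ≠ 0 := hQm.ne_zero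
    have hfin : T.Finite := by
      refine (Q.rootSet_finite QQ).subset fun x hx => ?_
      rw [mem_rootSet]
      exact ⟨hQ0, hT x hx⟩
    obtain ⟨S, rfl⟩ : ∃ S : Finset QQ, (S : Set QQ) = T := ⟨hfin.toFinset, hfin.coe_toFinset⟩
    have hS : ∀ x ∈ S, aeval x Q = 0 := fun x hx => hT x (by exact_mod_cast hx)
    have hSσ : ∀ x ∈ S, σ' x ∈ S := by
      intro x hx
      rw [h3 x (hS x hx)]
      exact_mod_cast hTσ x (by exact_mod_cast hx)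
    have hSj : ∀ (j : ℕ) (x : QQ), x ∈ S → (σ' ^ j) x ∈ S := by
      intro j
      induction j with
      | zero => intro x hx; simpa using hx
      | succ j ih =>
        intro x hx
        rw [pow_succ', AlgEquiv.mul_apply]
        exact hSσ _ (ih x hx)
    set R0 : (AlgebraicClosure ℚ_[ℓ])[X] := ∏ x ∈ S, (X - C (ι x)) with hR0
    have hR0m : R0.Monic := monic_prod_of_monic _ _ fun x _ => monic_X_sub_C _
    have hR0f : ∀ θ : AlgebraicClosure ℚ_[ℓ] ≃ₐ[ℚ_[ℓ]] AlgebraicClosure ℚ_[ℓ],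
        R0.map (θ : AlgebraicClosure ℚ_[ℓ] →+* AlgebraicClosure ℚ_[ℓ]) = R0 := by
      intro θ
      obtain ⟨g, hg⟩ := Pool.Agent.Y142.ZS.restrict0 ℓ ι θ
      have hgS : S.image (fun x => g x) = S := by
        apply Finset.eq_of_subset_of_card_le
        · intro y hy
          rw [Finset.mem_image] at hy
          obtain ⟨x, hx, rfl⟩ := hy
          obtain ⟨j, hj⟩ := h4 x (hS x hx) g (residue ℓ ι θ g hg)
          rw [hj]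
          exact hSj j x hx
        · rw [Finset.card_image_of_injective _ g.injective]
      rw [hR0, Polynomial.map_prod]
      have h6 : ∀ x ∈ S, (X - C (ι x)).map
          (θ : AlgebraicClosure ℚ_[ℓ] →+* AlgebraicClosure ℚ_[ℓ]) = X - C (ι (g x)) := by
        intro x _
        rw [Polynomial.map_sub, map_X, map_C, ← hg]
        rfl
      rw [Finset.prod_congr rfl h6]
      conv_rhs => rw [← hgS]
      rw [Finset.prod_image fun x _ y _ h => g.injective h]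
    have hgal := galT ℓ
    obtain ⟨R, hR, hRd, hRm⟩ := lift_R R0 hR0m hR0f
    refine ⟨R, hRm, ?_, ?_, ?_⟩
    · rw [← map_dvd_map' (algebraMap ℚ_[ℓ] (AlgebraicClosure ℚ_[ℓ])), hR, hR0]
      refine Finset.prod_dvd_of_coprime ?_ ?_
      · intro x _ y _ hxy
        exact isCoprime_X_sub_C_of_isUnit_sub
          (isUnit_iff_ne_zero.2 (sub_ne_zero.2 fun h => hxy (ι.injective h)))
      · intro x hx
        rw [dvd_iff_isRoot, IsRoot.def, Polynomial.map_map, eval_map]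
        have h7 := congrArg ι (hS x hx)
        rw [map_zero, aeval_def, hom_eval₂] at h7
        rw [← h7]
        congr 1
        exact RingHom.ext_rat _ _
    · rw [hRd, hR0, natDegree_prod_of_monic _ _ fun x _ => monic_X_sub_C _]
      simp
    · intro x hx
      have h8 : aeval (ι x) R = ∏ y ∈ S, (ι x - ι y) := by
        rw [aeval_def, ← eval_map, hR, hR0, eval_prod]
        simp
      rw [h8, Finset.prod_eq_zero_iff]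
      constructor
      · rintro ⟨y, hy, hxy⟩
        rw [ι.injective (sub_eq_zero.1 hxy)]
        exact_mod_cast hy
      · intro hx'
        exact ⟨x, by exact_mod_cast hx', sub_self _⟩

/-- **Task SUBF**, with the two hypotheses. -/
theorem t (hLF : S_LF) (_ : S_CF) : Pool.Agent.Y142.SI.S_SUBF := t0 hLF

end Pool.Agent.Y932.SI.Subf
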